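import Mathlib
import Pool.Agent.H.MP_462cdc_an.A

set_option autoImplicit false

namespace Pool.Agent.Results.MP_462cdc_an.Counter

/-- points with at most one nearest point in `G` -/
def U {E : Type} [NormedAddCommGroup E] (G : Set E) : Set E :=
  {x | {g ∈ G | ‖x - g‖ = Metric.infDist x G}.Subsingleton}

open Pool.Agent.H.MP_462cdc_an in
theorem result : ∃ (E : Type) (_ : NormedAddCommGroup E) (_ : NormedSpace ℝ E) (_ : CompleteSpace E),
    (∃ x y : E, ‖x‖ = 1 ∧ ‖y‖ = 1 ∧ x ≠ y ∧ ‖(1 / 2 : ℝ) • (x + y)‖ = 1) ∧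
    ∀ G : Set E, IsCompact G → G.Nonempty → Dense (U G) ∧ IsGδ (U G) ∧ ¬ IsMeagre (U G) := by
  refine ⟨S, inferInstance, inferInstance, inferInstance, flat, fun G hG hne => ?_⟩
  have h1 := dense_U P hA hB G hG hne
  have h2 := gdelta G hG
  exact ⟨h1, h2, not_isMeagre_of_mem_residual (residual_of_dense_Gδ h2 h1)⟩

end Pool.Agent.Results.MP_462cdc_an.Counter
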